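import Pool.Agent.Lib.PT4.Main
import Pool.Agent.Lib.DK4.Num

/-!
# MP_6da7ef_an : a lower bound of the fourth Dirichlet eigenvalue for all open sets

`lambda_4 * area >= 3 pi j01^2 > 16 pi` for every nonempty open set of finite area in the plane.

Proof.  Let the energy `int |grad u|^2 - Lambda u^2` be negative on a four-dimensional space of test
functions.  A double T is a line with one perpendicular half line on each side, at two heights; it cuts
the plane into four quadrants.  There is a double T such that every quadrant contains two disjoint
pieces of negative energy; by reflection, Faber-Krahn and a lemma on nested centrally symmetric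
domains a quadrant with two pieces contains the area `(3/4) pi j01^2 / Lambda`.  Existence: otherwise
the double Ts all of whose quadrants have index one form a connected set over all directions; the
positive functions of negative energy give it a locally constant orientation, which changes sign when
a cross is turned by a right angle (a cyclic permutation of four rows); so there is no cross, all
double Ts are offset in the same sense, and this is impossible for two perpendicular directions.
-/

open MeasureTheory Set

namespace Pool.Agent.Results.MP_6da7ef_an.AllSets

open DK4

theorem result :
    16 * Real.pi < 3 * (Real.pi * j01 ^ 2) ∧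
    ∀ Ω : Set ℂ, IsOpen Ω → Ω.Nonempty → volume Ω ≠ ⊤ →
      3 * (Real.pi * j01 ^ 2) ≤ dirEig 4 Ω * volume.real Ω := by
  refine ⟨?_, ?_⟩
  · have h1 := j01_gt
    have h2 := Real.pi_pos
    have h3 : (5.76 : ℝ) < j01 ^ 2 := by nlinarith
    have h4 := mul_lt_mul_of_pos_left h3 h2
    linarith
  · exact fun Ω h1 h2 h3 => PT4.eig3 h1 h2 h3

end Pool.Agent.Results.MP_6da7ef_an.AllSets
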