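import Pool.Agent.Lib.PL5.Eig

/-!
# MP_6da7ef_an : the conjecture for all open sets with short sections in one direction

If almost every line of one direction meets `Ω` in a set of length at most `l` and
`l^2 lambda_4 < 4 pi^2`, then `lambda_4 * area >= (3 sqrt 3 + 384/25) pi > pi (j01^2 + j11^2)`; in particular the
conjectured inequality holds if `l^2 (j01^2 + j11^2) <= 4 pi area`.

Proof.  Scale to `lambda_4 < 1`: the energy `int |grad u|^2 - u^2` is negative on a four-dimensional
space of test functions and the sections have length at most `2 pi`.  There are four vertical lines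
such that the energy is negative on a space of dimension 1, 2, 2, 2, 1 in the five cells between them.  A
nonnegative function with negative energy in a half plane has support of area at least
`3 sqrt 3 pi / 2`, one in a strip of width `w` has support of area more than `pi min (w, 64/25)`, by a
one-dimensional inequality for the norm `F` of the sections: with `k^2 = 3 F^(2/3) - F^2 - 2 E`,
`F'^2 >= 2 k |F'| - k^2`.  In a strip with a two-dimensional negative space there are two such functions
with disjoint supports, so its area is more than `2 pi min (w, 64/25)`; as the area is at most `2 pi w`, the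
strip has width at least `64/25`.
-/

open MeasureTheory Set

namespace Pool.Agent.Results.MP_6da7ef_an.ShortSections

open DK4

/-- Almost every line of direction `i a` meets `Ω` in a set of length at most `l`. -/
def SectionsLe (a : ℂ) (l : ℝ) (Ω : Set ℂ) : Prop :=
  ∀ᵐ x : ℝ, volume {y : ℝ | a * (x + y * Complex.I) ∈ Ω} ≤ ENNReal.ofReal l

theorem conv {a : ℂ} {l : ℝ} {Ω : Set ℂ} (h : SectionsLe a l Ω) :
    ∀ᵐ x : ℝ, volume {y : ℝ | a * (⟨x, y⟩ : ℂ) ∈ Ω} ≤ ENNReal.ofReal l := by
  unfold SectionsLe at h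
  filter_upwards [h] with x hx
  have e : ∀ y : ℝ, (x : ℂ) + y * Complex.I = ⟨x, y⟩ := fun y => by
    apply Complex.ext <;> simp
  simp only [e] at hx
  exact hx

theorem result :
    Real.pi * (j01 ^ 2 + j11 ^ 2) < (3 * Real.sqrt 3 + 384 / 25) * Real.pi ∧
    (∀ (a : ℂ) (l : ℝ) (Ω : Set ℂ), ‖a‖ = 1 → 0 ≤ l → IsOpen Ω → Ω.Nonempty → volume Ω ≠ ⊤ →
      SectionsLe a l Ω → l ^ 2 * dirEig 4 Ω < 4 * Real.pi ^ 2 →
      (3 * Real.sqrt 3 + 384 / 25) * Real.pi ≤ dirEig 4 Ω * volume.real Ω) ∧
    (∀ (a : ℂ) (l : ℝ) (Ω : Set ℂ), ‖a‖ = 1 → 0 ≤ l → IsOpen Ω → Ω.Nonempty → volume Ω ≠ ⊤ →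
      SectionsLe a l Ω → l ^ 2 * (j01 ^ 2 + j11 ^ 2) ≤ 4 * Real.pi * volume.real Ω →
      Real.pi * (j01 ^ 2 + j11 ^ 2) ≤ dirEig 4 Ω * volume.real Ω) := by
  have e : 2 * PL3.kap + 6 * (Real.pi * PL5.c0) = (3 * Real.sqrt 3 + 384 / 25) * Real.pi := by
    unfold PL3.kap PL5.c0
    ring
  refine ⟨?_, ?_, ?_⟩
  · rw [← e]
    exact PL5.num
  · intro a l Ω ha hl h1 h2 h3 hs hlt
    rw [← e]
    exact PL5.thinR ha h1 h2 h3 hl (conv hs) hlt
  · intro a l Ω ha hl h1 h2 h3 hs hlt
    exact PL5.thinC ha h1 h2 h3 hl (conv hs) hlt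

end Pool.Agent.Results.MP_6da7ef_an.ShortSections
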