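import Pool.Agent.Lib.DK4.Final
import Pool.Agent.Lib.DK4.RectC

/-!
# MP_6da7ef_an : sets with two axes of symmetry

Every open set of finite area with two distinct, non perpendicular axes of symmetry has
`lambda_4 * area >= 4 pi j01^2 > pi (j01^2 + j11^2)`; equality holds for four equal disks, and the
hypothesis on the angle cannot be dropped (a rectangle).
-/

open MeasureTheory Set Metric
open scoped ContDiff

namespace Pool.Agent.Results.MP_6da7ef_an.TwoAxes

open DK4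

/-- The reflection in the line through `p` with direction `a` (`|a| = 1`) maps `Ω` into itself. -/
def Axis (p a : ℂ) (Ω : Set ℂ) : Prop :=
  ∀ z ∈ Ω, p + a ^ 2 * (starRingEnd ℂ) (z - p) ∈ Ω

theorem axis_of_dsym {k : ℕ} {Ω : Set ℂ} (h : DSym k Ω) :
    Axis 0 1 Ω ∧ Axis 0 (Complex.exp (Real.pi * Complex.I / k)) Ω := by
  constructor
  · intro z hz
    have := (h z hz).2
    simpa using this
  · intro z hz
    have h1 := (h _ (h z hz).2).1
    have e : Complex.exp (Real.pi * Complex.I / k) ^ 2 = rot k := by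
      rw [← Complex.exp_nat_mul, rot]
      congr 1
      push_cast
      ring
    rw [e]
    simpa using h1

theorem refl_one (p z : ℂ) : (p + 1 ^ 2 * (starRingEnd ℂ) (z - p)).re = z.re ∧
    (p + 1 ^ 2 * (starRingEnd ℂ) (z - p)).im = 2 * p.im - z.im := by
  constructor
  · simp
  · simp
    ring

theorem refl_I (p z : ℂ) : (p + Complex.I ^ 2 * (starRingEnd ℂ) (z - p)).re = 2 * p.re - z.re ∧
    (p + Complex.I ^ 2 * (starRingEnd ℂ) (z - p)).im = z.im := by
  rw [Complex.I_sq]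
  constructor
  · simp
    ring
  · simp

/-- the centre of the rectangle -/
noncomputable def pr : ℂ := ⟨4, 5 / 2⟩

theorem axis_rect : Axis pr 1 rect ∧ Axis pr Complex.I rect := by
  constructor
  · intro z hz
    obtain ⟨h1, h2⟩ := hz
    rw [mem_Ioo] at h1 h2
    constructor
    · rw [(refl_one pr z).1]
      exact h1
    · rw [(refl_one pr z).2, mem_Ioo]
      have : pr.im = 5 / 2 := rfl
      constructor <;> linarith
  · intro z hz
    obtain ⟨h1, h2⟩ := hz
    rw [mem_Ioo] at h1 h2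
    constructor
    · rw [(refl_I pr z).1, mem_Ioo]
      have : pr.re = 4 := rfl
      constructor <;> linarith
    · rw [(refl_I pr z).2]
      exact h2

theorem result :
    Real.pi * (j01 ^ 2 + j11 ^ 2) < 4 * Real.pi * j01 ^ 2 ∧
    (∀ (p a b : ℂ) (Ω : Set ℂ), ‖a‖ = 1 → ‖b‖ = 1 → a ^ 2 ≠ b ^ 2 → a ^ 2 ≠ -b ^ 2 →
      IsOpen Ω → Ω.Nonempty → volume Ω ≠ ⊤ → Axis p a Ω → Axis p b Ω →
      4 * Real.pi * j01 ^ 2 ≤ dirEig 4 Ω * volume.real Ω) ∧
    (∀ k : ℕ, k = 3 ∨ k = 4 → ∃ c : Fin 4 → ℂ, (∀ i j, i ≠ j → 2 ≤ dist (c i) (c j)) ∧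
      Axis 0 1 (⋃ i, ball (c i) 1) ∧
      Axis 0 (Complex.exp (Real.pi * Complex.I / k)) (⋃ i, ball (c i) 1) ∧
      dirEig 4 (⋃ i, ball (c i) 1) * volume.real (⋃ i, ball (c i) 1) =
        4 * Real.pi * j01 ^ 2) ∧
    (∃ (p : ℂ) (Ω : Set ℂ), IsOpen Ω ∧ Ω.Nonempty ∧ volume Ω ≠ ⊤ ∧
      Axis p 1 Ω ∧ Axis p Complex.I Ω ∧
      dirEig 4 Ω * volume.real Ω < 4 * Real.pi * j01 ^ 2) := by
  refine ⟨?_, ?_, ?_, ?_⟩
  · have h1 := j11_sq_lt
    have h2 := Real.pi_pos
    nlinarith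
  · intro p a b Ω ha hb hab hab' hΩo hne hfin hA hB
    exact two_axes ha hb hab hab' hΩo hne hfin hA hB
  · rintro k (rfl | rfl)
    · obtain ⟨c, h1, h2, h3⟩ := sharp3
      exact ⟨c, h1, (axis_of_dsym h2).1, (axis_of_dsym h2).2, h3⟩
    · obtain ⟨c, h1, h2, h3⟩ := sharp4
      exact ⟨c, h1, (axis_of_dsym h2).1, (axis_of_dsym h2).2, h3⟩
  · refine ⟨pr, rect, ?_, ⟨pr, ?_⟩, ?_, axis_rect.1, axis_rect.2, rect_lt⟩
    · have : rect = Complex.re ⁻¹' Ioo (0 : ℝ) 8 ∩ Complex.im ⁻¹' Ioo (0 : ℝ) 5 := rfl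
      rw [this]
      exact (isOpen_Ioo.preimage Complex.continuous_re).inter
        (isOpen_Ioo.preimage Complex.continuous_im)
    · have h1 : pr.re = 4 := rfl
      have h2 : pr.im = 5 / 2 := rfl
      constructor
      · rw [mem_Ioo, h1]
        norm_num
      · rw [mem_Ioo, h2]
        norm_num
    · intro h
      have h1 := rect_vol
      rw [Measure.real, h] at h1
      norm_num at h1

end Pool.Agent.Results.MP_6da7ef_an.TwoAxes
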