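import Pool.Agent.Lib.PL3.Min
import Pool.Agent.Lib.PL3.Num

/-!
# MP_6da7ef_an : plane open sets with two separated parts

For a disconnected minimiser of the fourth eigenvalue `lambda_4 * area >= pi j01^2 + 12 pi`, by
`lambda_3 * area >= 12 pi` for every nonempty open set of finite area.

Proof of the bound for `lambda_3`.  Let the energy `int |grad u|^2 - u^2` be negative on a
three-dimensional space of test functions.  There is a vertical line such that it is negative on a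
two-dimensional space on both sides (two forms with negative sum, and connectedness of the real
line), so by the sign trick there are four disjoint pieces of negative energy, two on each side,
and in the same way for a horizontal line.  For one piece the sections parallel to the line and
the one-dimensional inequality with a Riccati certificate show that its area is large or that a weighted
area, with a larger weight on a strip along the line, is large.  The two strips of the two lines meet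
in a square of known area, so the two weighted sums can be added.
-/

open MeasureTheory Set

namespace Pool.Agent.Results.MP_6da7ef_an.TwoParts

open DK4

theorem result :
    3 * (Real.pi * j01 ^ 2) < Real.pi * j01 ^ 2 + 12 * Real.pi ∧
    Real.pi * j01 ^ 2 + 12 * Real.pi < Real.pi * (j01 ^ 2 + j11 ^ 2) ∧
    (∀ Ω₁ Ω₂ : Set ℂ, IsOpen Ω₁ → IsOpen Ω₂ → Disjoint Ω₁ Ω₂ → Ω₁.Nonempty → Ω₂.Nonempty →
      volume Ω₁ ≠ ⊤ → volume Ω₂ ≠ ⊤ →
      dirEig 1 Ω₁ ≤ dirEig 4 (Ω₁ ∪ Ω₂) → dirEig 1 Ω₂ ≤ dirEig 4 (Ω₁ ∪ Ω₂) →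
      Real.pi * j01 ^ 2 + 12 * Real.pi ≤ dirEig 4 (Ω₁ ∪ Ω₂) * volume.real (Ω₁ ∪ Ω₂)) ∧
    (∀ Ω₁ Ω₂ : Set ℂ, IsOpen Ω₁ → IsOpen Ω₂ → Disjoint Ω₁ Ω₂ → Ω₁.Nonempty → Ω₂.Nonempty →
      volume Ω₁ ≠ ⊤ → volume Ω₂ ≠ ⊤ →
      (∀ Ω : Set ℂ, IsOpen Ω → Ω.Nonempty → volume Ω ≠ ⊤ →
        dirEig 4 (Ω₁ ∪ Ω₂) * volume.real (Ω₁ ∪ Ω₂) ≤ dirEig 4 Ω * volume.real Ω) →
      Real.pi * j01 ^ 2 + 12 * Real.pi ≤ dirEig 4 (Ω₁ ∪ Ω₂) * volume.real (Ω₁ ∪ Ω₂)) ∧
    (∀ Ω : Set ℂ, IsOpen Ω → Ω.Nonempty → volume Ω ≠ ⊤ →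
      12 * Real.pi ≤ dirEig 3 Ω * volume.real Ω) := by
  have hpi := Real.pi_pos
  refine ⟨?_, ?_, ?_, ?_, ?_⟩
  · have := PL3.j01_sq_lt
    nlinarith
  · have := PL3.j11_sq_gt
    nlinarith
  · intro Ω₁ Ω₂ h1 h2 hd hn1 hn2 hf1 hf2 e1 e2
    exact PL3.eigC h1 h2 hd hn1 hn2 hf1 hf2 e1 e2
  · intro Ω₁ Ω₂ h1 h2 hd hn1 hn2 hf1 hf2 hmin
    exact PL3.eigMin h1 h2 hd hn1 hn2 hf1 hf2 hmin
  · intro Ω h1 h2 h3
    exact PL3.eig3 h1 h2 h3

end Pool.Agent.Results.MP_6da7ef_an.TwoParts
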